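import Pool.Agent.helper20.HP.Goal

open scoped BigOperators Topology
open Filter MeasureTheory

namespace Pool.Agent.helper20.HP

theorem ind_true {p : Prop} (h : p) : ind p = 1 := by
  unfold ind; exact if_pos h

theorem ind_false {p : Prop} (h : ¬ p) : ind p = 0 := by
  unfold ind; exact if_neg h

theorem ind_nonneg (p : Prop) : 0 ≤ ind p := by
  by_cases h : p
  · rw [ind_true h]; exact zero_le_one
  · rw [ind_false h]

theorem ind_le_one (p : Prop) : ind p ≤ 1 := by
  by_cases h : p
  · rw [ind_true h]
  · rw [ind_false h]; exact zero_le_one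

theorem ind_mono {p q : Prop} (h : p → q) : ind p ≤ ind q := by
  by_cases hp : p
  · rw [ind_true hp, ind_true (h hp)]
  · rw [ind_false hp]; exact ind_nonneg q

theorem ind_and (p q : Prop) : ind (p ∧ q) = ind p * ind q := by
  by_cases hp : p
  · by_cases hq : q
    · rw [ind_true hp, ind_true hq, ind_true ⟨hp, hq⟩]; ring
    · rw [ind_true hp, ind_false hq, ind_false (fun h => hq h.2)]; ring
  · rw [ind_false hp, ind_false (fun h => hp h.1)]; ring

theorem ind_or_le (p q : Prop) : ind (p ∨ q) ≤ ind p + ind q := by
  by_cases hp : p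
  · rw [ind_true hp, ind_true (Or.inl hp)]
    have := ind_nonneg q
    linarith
  · by_cases hq : q
    · rw [ind_false hp, ind_true hq, ind_true (Or.inr hq)]; linarith
    · rw [ind_false hp, ind_false hq, ind_false (by tauto)]; linarith

theorem ind_not (p : Prop) : ind (¬ p) = 1 - ind p := by
  by_cases hp : p
  · rw [ind_true hp, ind_false (not_not.mpr hp)]; ring
  · rw [ind_false hp, ind_true hp]; ring

theorem ind_congr {p q : Prop} (h : p ↔ q) : ind p = ind q := by
  rw [propext h]

variable {V : Type} [Fintype V] [DecidableEq V] (K : HW V)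

theorem W_zero (x : V) (f : List V → ℝ) : W K 0 x f = f [] := rfl

theorem W_succ (k : ℕ) (x : V) (f : List V → ℝ) :
    W K (k + 1) x f = ∑ y, K.p x y * W K k y (fun l => f (y :: l)) := rfl

theorem W_congr (k : ℕ) (x : V) {f g : List V → ℝ} (h : ∀ l, l.length = k → f l = g l) :
    W K k x f = W K k x g := by
  induction k generalizing x f g with
  | zero => rw [W_zero, W_zero]; exact h [] rfl
  | succ k ih =>
    rw [W_succ, W_succ]
    refine Finset.sum_congr rfl (fun y _ => ?_)
    rw [ih y (fun l hl => h (y :: l) (by simp [hl]))]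

theorem W_mono (k : ℕ) (x : V) {f g : List V → ℝ} (h : ∀ l, l.length = k → f l ≤ g l) :
    W K k x f ≤ W K k x g := by
  induction k generalizing x f g with
  | zero => rw [W_zero, W_zero]; exact h [] rfl
  | succ k ih =>
    rw [W_succ, W_succ]
    refine Finset.sum_le_sum (fun y _ => ?_)
    exact mul_le_mul_of_nonneg_left (ih y (fun l hl => h (y :: l) (by simp [hl]))) (K.nonneg x y)

theorem W_const (k : ℕ) (x : V) (c : ℝ) : W K k x (fun _ => c) = c := by
  induction k generalizing x with
  | zero => rw [W_zero]
  | succ k ih =>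
    rw [W_succ]
    simp_rw [ih]
    rw [← Finset.sum_mul, K.sum_one, one_mul]

theorem W_nonneg (k : ℕ) (x : V) {f : List V → ℝ} (h : ∀ l, l.length = k → 0 ≤ f l) :
    0 ≤ W K k x f := by
  have := W_mono K k x (f := fun _ => 0) (g := f) h
  rwa [W_const] at this

theorem W_add (k : ℕ) (x : V) (f g : List V → ℝ) :
    W K k x (fun l => f l + g l) = W K k x f + W K k x g := by
  induction k generalizing x f g with
  | zero => simp only [W_zero]
  | succ k ih =>
    simp only [W_succ]
    rw [← Finset.sum_add_distrib]
    refine Finset.sum_congr rfl (fun y _ => ?_)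
    rw [ih]; ring

theorem W_mul_left (k : ℕ) (x : V) (c : ℝ) (f : List V → ℝ) :
    W K k x (fun l => c * f l) = c * W K k x f := by
  induction k generalizing x f with
  | zero => simp only [W_zero]
  | succ k ih =>
    simp only [W_succ]
    rw [Finset.mul_sum]
    refine Finset.sum_congr rfl (fun y _ => ?_)
    rw [ih]; ring

theorem W_mul_right (k : ℕ) (x : V) (c : ℝ) (f : List V → ℝ) :
    W K k x (fun l => f l * c) = W K k x f * c := by
  rw [mul_comm, ← W_mul_left]
  exact W_congr K k x (fun l _ => mul_comm _ _)

theorem W_sub (k : ℕ) (x : V) (f g : List V → ℝ) :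
    W K k x (fun l => f l - g l) = W K k x f - W K k x g := by
  have h := W_add K k x f (fun l => (-1) * g l)
  rw [W_mul_left] at h
  rw [W_congr K k x (f := fun l => f l - g l) (g := fun l => f l + (-1) * g l)
    (fun l _ => by ring), h]
  ring

theorem W_sum {ι : Type*} (s : Finset ι) (k : ℕ) (x : V) (f : ι → List V → ℝ) :
    W K k x (fun l => ∑ i ∈ s, f i l) = ∑ i ∈ s, W K k x (f i) := by
  classical
  induction s using Finset.induction_on with
  | empty => simp only [Finset.sum_empty]; exact W_const K k x 0
  | insert a s ha ih =>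
    rw [Finset.sum_insert ha, ← ih, ← W_add]
    exact W_congr K k x (fun l _ => by rw [Finset.sum_insert ha])

theorem W_abs_le (k : ℕ) (x : V) (f : List V → ℝ) :
    |W K k x f| ≤ W K k x (fun l => |f l|) := by
  rw [abs_le]
  constructor
  · have h := W_mono K k x (f := fun l => (-1) * |f l|) (g := f)
      (fun l _ => by have := neg_abs_le (f l); linarith)
    rw [W_mul_left] at h
    linarith
  · exact W_mono K k x (fun l _ => le_abs_self (f l))

theorem A1_lst_nil (x : V) : lst x [] = x := rfl

theorem A1_lst_cons (x y : V) (l : List V) : lst x (y :: l) = lst y l := by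
  unfold lst
  cases l with
  | nil => rfl
  | cons z l => simp [List.getLastD]

theorem A1_lst_append (x : V) (l : List V) (y : V) : lst x (l ++ [y]) = y := by
  induction l generalizing x with
  | nil => rfl
  | cons z l ih => rw [List.cons_append, A1_lst_cons]; exact ih z

/-- Markov property -/
theorem W_split (j k : ℕ) (x : V) (f : List V → ℝ) :
    W K (j + k) x f = W K j x (fun l => W K k (lst x l) (fun l' => f (l ++ l'))) := by
  induction j generalizing x f with
  | zero => rw [Nat.zero_add, W_zero]; rfl
  | succ j ih =>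
    rw [show j + 1 + k = (j + k) + 1 by ring, W_succ, W_succ]
    refine Finset.sum_congr rfl (fun y _ => ?_)
    rw [ih]
    congr 1
    refine W_congr K j y (fun l _ => ?_)
    rw [A1_lst_cons]
    rfl

/-- image under an automorphism -/
theorem W_map (σ : Equiv.Perm V) (hσ : ∀ u v, K.p (σ u) (σ v) = K.p u v) (k : ℕ) (x : V)
    (f : List V → ℝ) : W K k (σ x) f = W K k x (fun l => f (l.map σ)) := by
  induction k generalizing x f with
  | zero => rfl
  | succ k ih =>
    rw [W_succ, W_succ, ← Equiv.sum_comp σ]
    refine Finset.sum_congr rfl (fun y _ => ?_)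
    rw [hσ, ih]
    rfl

/-- right recursion -/
theorem A1_W_succ' (k : ℕ) (x : V) (f : List V → ℝ) :
    W K (k + 1) x f = W K k x (fun l => ∑ y, K.p (lst x l) y * f (l ++ [y])) := by
  rw [W_split]
  refine W_congr K k x (fun l _ => ?_)
  rw [W_succ]
  refine Finset.sum_congr rfl (fun y _ => ?_)
  rw [W_zero]

/-- auxiliary function for the time reversal -/
noncomputable def A1_g (f : List V → ℝ) : List V → ℝ
  | [] => 0
  | z :: m => ∑ y, K.p z y * f (y :: z :: m)

theorem A1_rev (x : V) (l : List V) : ∃ m, (x :: l).reverse = lst x l :: m := by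
  induction l generalizing x with
  | nil => exact ⟨[], rfl⟩
  | cons z l ih =>
    obtain ⟨m, hm⟩ := ih z
    refine ⟨m ++ [x], ?_⟩
    rw [List.reverse_cons, hm, A1_lst_cons]
    rfl

/-- time reversal -/
theorem W_rev (k : ℕ) (f : List V → ℝ) :
    ∑ x, W K k x (fun l => f (x :: l)) = ∑ x, W K k x (fun l => f (x :: l).reverse) := by
  induction k generalizing f with
  | zero => simp only [W_zero]; rfl
  | succ k ih =>
    have h1 : ∀ x, W K (k + 1) x (fun l => f (x :: l).reverse)
        = W K k x (fun l => A1_g K f (x :: l).reverse) := by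
      intro x
      rw [A1_W_succ']
      refine W_congr K k x (fun l _ => ?_)
      obtain ⟨m, hm⟩ := A1_rev x l
      rw [hm]
      simp only [A1_g]
      refine Finset.sum_congr rfl (fun y _ => ?_)
      rw [show x :: (l ++ [y]) = (x :: l) ++ [y] by simp, List.reverse_append, hm]
      rfl
    simp_rw [h1]
    rw [← ih]
    have h2 : ∀ x, W K k x (fun l => A1_g K f (x :: l))
        = ∑ y, K.p x y * W K k x (fun l => f (y :: x :: l)) := by
      intro x
      have : W K k x (fun l => A1_g K f (x :: l))
          = W K k x (fun l => ∑ y, K.p x y * f (y :: x :: l)) :=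
        W_congr K k x (fun l _ => rfl)
      rw [this, W_sum]
      refine Finset.sum_congr rfl (fun y _ => ?_)
      rw [W_mul_left]
    simp_rw [h2]
    rw [Finset.sum_comm]
    refine Finset.sum_congr rfl (fun x _ => ?_)
    rw [W_succ]
    refine Finset.sum_congr rfl (fun y _ => ?_)
    rw [K.symm x y]

/-- invariant functionals do not see the starting point -/
theorem W_inv (k : ℕ) (f : List V → ℝ)
    (hf : ∀ σ : Equiv.Perm V, (∀ u v, K.p (σ u) (σ v) = K.p u v) → ∀ l, f (l.map σ) = f l)
    (x y : V) : W K k x (fun l => f (x :: l)) = W K k y (fun l => f (y :: l)) := by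
  obtain ⟨σ, hσ, hxy⟩ := K.homog x y
  rw [← hxy, W_map K σ hσ]
  refine W_congr K k x (fun l _ => ?_)
  have := hf σ hσ (x :: l)
  rw [List.map_cons] at this
  exact this.symm

theorem A1_getD_map (σ : Equiv.Perm V) (l : List V) (j : ℕ) (x : V) :
    (l.map σ).getD j (σ x) = σ (l.getD j x) := by
  rw [List.getD_map]

/-- mass transport: fixing the position at time `j ≤ k` of the stationary walk -/
theorem W_mt (k j : ℕ) (hj : j ≤ k) (f : List V → ℝ)
    (hf : ∀ σ : Equiv.Perm V, (∀ u v, K.p (σ u) (σ v) = K.p u v) → ∀ l, f (l.map σ) = f l)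
    (y z : V) : ∑ x, W K k x (fun l => ind ((x :: l).getD j x = y) * f (x :: l))
      = W K k z (fun l => f (z :: l)) := by
  have hF : ∀ u v : V, ∑ x, W K k x (fun l => ind ((x :: l).getD j x = v) * f (x :: l))
      = ∑ x, W K k x (fun l => ind ((x :: l).getD j x = u) * f (x :: l)) := by
    intro u v
    obtain ⟨σ, hσ, huv⟩ := K.homog u v
    rw [← huv, ← Equiv.sum_comp σ]
    refine Finset.sum_congr rfl (fun x _ => ?_)
    rw [W_map K σ hσ]
    refine W_congr K k x (fun l _ => ?_)
    have h1 := hf σ hσ (x :: l)
    have h2 := A1_getD_map σ (x :: l) j x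
    rw [List.map_cons] at h1 h2
    rw [h1, h2]
    rw [ind_congr (σ.apply_eq_iff_eq)]
  have hsum : ∑ v, ∑ x, W K k x (fun l => ind ((x :: l).getD j x = v) * f (x :: l))
      = ∑ x, W K k x (fun l => f (x :: l)) := by
    rw [Finset.sum_comm]
    refine Finset.sum_congr rfl (fun x _ => ?_)
    rw [← W_sum]
    refine W_congr K k x (fun l _ => ?_)
    rw [← Finset.sum_mul]
    have : ∑ v, ind ((x :: l).getD j x = v) = 1 := by
      rw [Finset.sum_eq_single ((x :: l).getD j x)]
      · exact ind_true rfl
      · intro b _ hb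
        exact ind_false (fun h => hb h.symm)
      · intro h; exact absurd (Finset.mem_univ _) h
    rw [this, one_mul]
  have h3 : (Fintype.card V : ℝ)
      * ∑ x, W K k x (fun l => ind ((x :: l).getD j x = y) * f (x :: l))
      = (Fintype.card V : ℝ) * W K k z (fun l => f (z :: l)) := by
    have e1 : ∑ v, ∑ x, W K k x (fun l => ind ((x :: l).getD j x = v) * f (x :: l))
        = (Fintype.card V : ℝ)
          * ∑ x, W K k x (fun l => ind ((x :: l).getD j x = y) * f (x :: l)) := by
      rw [Finset.sum_congr rfl (fun v _ => hF y v), Finset.sum_const, Finset.card_univ,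
        nsmul_eq_mul]
    have e2 : ∑ x, W K k x (fun l => f (x :: l))
        = (Fintype.card V : ℝ) * W K k z (fun l => f (z :: l)) := by
      rw [Finset.sum_congr rfl (fun x _ => W_inv K k f hf x z), Finset.sum_const,
        Finset.card_univ, nsmul_eq_mul]
    rw [← e1, ← e2, hsum]
  have hn : (Fintype.card V : ℝ) ≠ 0 := by
    have : 0 < Fintype.card V := Fintype.card_pos_iff.mpr ⟨y⟩
    positivity
  exact mul_left_cancel₀ hn h3

end Pool.Agent.helper20.HP
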